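import Pool.Agent.AlmostInt.Main

open Finset

namespace Pool.Agent.Results.MP_67e379_co.EdgeBound

universe u

/-- `F` is `[a, b]`-almost intersecting: every member of `F` is disjoint from at least `a` and at
most `b` members of `F`. -/
def AlmostIntersecting {V : Type u} [DecidableEq V] (a b : ℕ) (F : Finset (Finset V)) : Prop :=
  ∀ A ∈ F, a ≤ (F.filter fun B => A ∩ B = ∅).card ∧ (F.filter fun B => A ∩ B = ∅).card ≤ b

/-- For every `k ≥ 2` there is a threshold such that, for every larger `s`, a `k`-uniform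
`[1, s]`-almost intersecting hypergraph has at most `(s + 1) * binomial (2k - 2) (k - 1)` edges. -/
theorem result : ∀ k : ℕ, 2 ≤ k → ∃ s₁ : ℕ, ∀ s : ℕ, s₁ < s →
    ∀ (V : Type u) [DecidableEq V] (F : Finset (Finset V)),
      (∀ A ∈ F, A.card = k) → AlmostIntersecting 1 s F →
        F.card ≤ (s + 1) * (2 * k - 2).choose (k - 1) := by
  intro k hk
  obtain ⟨r, rfl⟩ : ∃ r, k = r + 1 := ⟨k - 1, by omega⟩
  obtain ⟨s₁, h⟩ := AlmostInt.main_bound.{u} r (by omega)
  refine ⟨s₁, ?_⟩
  intro s hs V _ F hF hint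
  have e1 : 2 * (r + 1) - 2 = 2 * r := by omega
  have e2 : r + 1 - 1 = r := rfl
  rw [e1, e2]
  apply h s hs V F hF
  intro A hA
  have h1 := hint A hA
  have h2 : F.filter (fun B => A ∩ B = ∅) = F.filter (fun B => Disjoint A B) := by
    apply Finset.filter_congr
    intro B _
    rw [Finset.disjoint_iff_inter_eq_empty]
  rw [h2] at h1
  exact h1

end Pool.Agent.Results.MP_67e379_co.EdgeBound
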